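import Pool.Agent.W262.SH.Stm
import Pool.Agent.W214.RK2.Desc4

/-!
SH-DESC5: the number of the pairs of square classes that satisfy the local conditions.
-/

set_option autoImplicit false
set_option linter.unusedSectionVars false

namespace Pool.Agent.W839.SH

open Finset Pool.Agent.W262.RK Pool.Agent.W599.RK Pool.Agent.W214.RK2 Pool.Agent.W262.SH

/-- Two squarefree natural numbers whose product is a square are equal. -/
lemma nat_sqf_eq {a b r : ℕ} (ha : Squarefree a) (hb : Squarefree b) (h : a * b = r ^ 2) :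
    a = b := by
  obtain ⟨g, a', b', hg, hco, rfl, rfl⟩ : ∃ g a' b' : ℕ, 0 < g ∧ Nat.Coprime a' b' ∧
      a = g * a' ∧ b = g * b' := by
    have hg : 0 < Nat.gcd a b := Nat.gcd_pos_of_pos_left _ (Nat.pos_of_ne_zero ha.ne_zero)
    exact ⟨Nat.gcd a b, a / Nat.gcd a b, b / Nat.gcd a b, hg, Nat.coprime_div_gcd_div_gcd hg,
      (Nat.mul_div_cancel' (Nat.gcd_dvd_left a b)).symm,
      (Nat.mul_div_cancel' (Nat.gcd_dvd_right a b)).symm⟩
  have h1 : g ^ 2 * (a' * b') = r ^ 2 := by rw [← h]; ring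
  have h2 : g ∣ r := by
    rw [← Nat.pow_dvd_pow_iff (n := 2) (by norm_num), ← h1]
    exact dvd_mul_right _ _
  obtain ⟨s, rfl⟩ := h2
  have h3 : a' * b' = s ^ 2 := by
    have h4 : g ^ 2 * (a' * b') = g ^ 2 * s ^ 2 := by rw [h1]; ring
    exact Nat.eq_of_mul_eq_mul_left (by positivity) h4
  have h4 : ∀ x y t : ℕ, Nat.Coprime x y → x * y = t ^ 2 → Squarefree (g * x) → x = 1 := by
    intro x y t hxy hxt hsq
    obtain ⟨c, hc⟩ := exists_eq_pow_of_mul_eq_pow (a := x) (b := y) (c := t) (k := 2)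
      (by
        show IsUnit (Nat.gcd x y)
        rw [hxy]
        exact isUnit_one) hxt
    have h5 : c * c ∣ g * x := by rw [hc]; exact ⟨g, by ring⟩
    have h6 := hsq c h5
    rw [Nat.isUnit_iff] at h6
    rw [hc, h6]
    norm_num
  rw [h4 a' b' s hco h3 ha, h4 b' a' s hco.symm (by rw [mul_comm]; exact h3) hb]

/-- Two squarefree integers whose product is a square are equal. -/
lemma sqf_eq {a b : ℤ} (ha : Squarefree a) (hb : Squarefree b) (h : IsSquare ((a : ℚ) * b)) :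
    a = b := by
  have h1 : IsSquare (a * b) := by
    have h2 : IsSquare (((a * b : ℤ)) : ℚ) := by push_cast; exact h
    exact Rat.isSquare_intCast_iff.mp h2
  obtain ⟨r, hr⟩ := h1
  have h2 : a.natAbs * b.natAbs = r.natAbs ^ 2 := by
    rw [← Int.natAbs_mul, hr, Int.natAbs_mul, pow_two]
  have h3 := nat_sqf_eq (Int.squarefree_natAbs.mpr ha) (Int.squarefree_natAbs.mpr hb) h2
  rcases Int.natAbs_eq_natAbs_iff.mp h3 with h4 | h4
  · exact h4
  · exfalso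
    have hb0 : b ≠ 0 := hb.ne_zero
    have h5 : a * b < 0 := by
      rw [h4]
      have : 0 < b * b := mul_self_pos.mpr hb0
      linarith
    have h6 : 0 ≤ r * r := mul_self_nonneg r
    linarith

open Classical in
/-- the outer data of a pair -/
noncomputable def outS (OP : Finset ℕ) (e : ℤ × ℤ) : Out OP :=
  (decide (0 < e.1), decide (0 < e.2),
    fun q => (decide (Even (padicValRat q.1 (e.1 : ℚ))),
      decide (Even (padicValRat q.1 (e.2 : ℚ)))))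

lemma even_val {q : ℕ} (hq : q.Prime) {a : ℤ} (h : ¬ (q : ℤ) ∣ a) :
    Even (padicValRat q (a : ℚ)) := by
  rw [padicValRat.of_int, padicValInt.eq_zero_of_not_dvd h]
  exact Even.zero

theorem desc5 (hg : GOOD2) : DESC5 := by
  classical
  intro m L A B hA hB hAB hodd hm hL hloc
  set OP : Finset ℕ := (2 * A * B * (A - B)).natAbs.primeFactors.filter (fun q => ¬ q ∣ m)
    with hOPdef
  have hD0 : 2 * A * B * (A - B) ≠ 0 :=
    mul_ne_zero (mul_ne_zero (mul_ne_zero two_ne_zero hA) hB) (sub_ne_zero.mpr hAB)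
  have hOP : ∀ q : ℕ, q.Prime → (q : ℤ) ∣ 2 * A * B * (A - B) → ¬ q ∣ m → q ∈ OP := by
    intro q hq hqd hqs
    rw [hOPdef, Finset.mem_filter, Nat.mem_primeFactors]
    exact ⟨⟨hq, Int.natCast_dvd.mp hqd, Int.natAbs_ne_zero.mpr hD0⟩, hqs⟩
  set F : Finset (ℕ × ℕ) := (m.divisors ×ˢ m.divisors).filter (fun d : ℕ × ℕ =>
    ∀ p ∈ m.primeFactors, L p (dv p d.1) (dv p d.2) (sgn p d.1) (sgn p d.2)) with hF
  have hFcard : F.card = NL m L := by
    unfold NL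
    rw [hF]
  have h10 : ∀ e ∈ SelS A B, (e.1 : ℚ) ≠ 0 := fun e he => by
    exact_mod_cast he.1.ne_zero
  have h20 : ∀ e ∈ SelS A B, (e.2 : ℚ) ≠ 0 := fun e he => by
    exact_mod_cast he.2.1.ne_zero
  -- comparison of two pairs with the same outer data
  have hcmp : ∀ e ∈ SelS A B, ∀ f ∈ SelS A B, outS OP e = outS OP f →
      ((0 : ℚ) < e.1 ↔ (0 : ℚ) < f.1) ∧ ((0 : ℚ) < e.2 ↔ (0 : ℚ) < f.2) ∧
      (∀ q : ℕ, q.Prime → ¬ q ∣ m →
        (Even (padicValRat q (e.1 : ℚ)) ↔ Even (padicValRat q (f.1 : ℚ))) ∧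
        (Even (padicValRat q (e.2 : ℚ)) ↔ Even (padicValRat q (f.2 : ℚ)))) := by
    intro e he f hf ho
    have h1 : decide (0 < e.1) = decide (0 < f.1) := congrArg Prod.fst ho
    have h23 := congrArg Prod.snd ho
    have h2 : decide (0 < e.2) = decide (0 < f.2) := congrArg Prod.fst h23
    have h3 := congrArg Prod.snd h23
    refine ⟨?_, ?_, fun q hq hqm => ?_⟩
    · rw [Int.cast_pos, Int.cast_pos]
      exact decide_eq_decide.mp h1
    · rw [Int.cast_pos, Int.cast_pos]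
      exact decide_eq_decide.mp h2
    by_cases hD : (q : ℤ) ∣ 2 * A * B * (A - B)
    · have h4 := congrFun h3 ⟨q, hOP q hq hD hqm⟩
      have h5 : decide (Even (padicValRat q (e.1 : ℚ))) = decide (Even (padicValRat q (f.1 : ℚ))) :=
        congrArg Prod.fst h4
      have h6 : decide (Even (padicValRat q (e.2 : ℚ))) =
          decide (Even (padicValRat q (f.2 : ℚ))) := congrArg Prod.snd h4
      exact ⟨decide_eq_decide.mp h5, decide_eq_decide.mp h6⟩
    · have : Fact q.Prime := ⟨hq⟩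
      have hq2 : q ≠ 2 := by
        rintro rfl
        apply hD
        exact ⟨A * B * (A - B), by push_cast; ring⟩
      obtain ⟨a1, a2⟩ := hg q A B hD e.1 e.2 he.1 he.2.1 (he.2.2 q hq2)
      obtain ⟨b1, b2⟩ := hg q A B hD f.1 f.2 hf.1 hf.2.1 (hf.2.2 q hq2)
      exact ⟨⟨fun _ => even_val hq b1, fun _ => even_val hq a1⟩,
        ⟨fun _ => even_val hq b2, fun _ => even_val hq a2⟩⟩
  have hsqs : ∀ e ∈ SelS A B, ∀ f ∈ SelS A B, outS OP e = outS OP f →
      IsSquare ((e.1 : ℚ) * (f.1 : ℚ) * (dd m (e.1 : ℚ) (f.1 : ℚ) : ℚ)) ∧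
      IsSquare ((e.2 : ℚ) * (f.2 : ℚ) * (dd m (e.2 : ℚ) (f.2 : ℚ) : ℚ)) := by
    intro e he f hf ho
    obtain ⟨c1, c2, c3⟩ := hcmp e he f hf ho
    exact ⟨dd_sq m hm _ _ (h10 e he) (h10 f hf) c1 (fun q hq hqm => (c3 q hq hqm).1),
      dd_sq m hm _ _ (h20 e he) (h20 f hf) c2 (fun q hq hqm => (c3 q hq hqm).2)⟩
  have hFmem : ∀ e ∈ SelS A B, ∀ f ∈ SelS A B, outS OP e = outS OP f →
      (dd m (e.1 : ℚ) (f.1 : ℚ), dd m (e.2 : ℚ) (f.2 : ℚ)) ∈ F := by
    intro e he f hf ho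
    obtain ⟨s1, s2⟩ := hsqs e he f hf ho
    rw [hF, Finset.mem_filter, Finset.mem_product]
    refine ⟨⟨Nat.mem_divisors.mpr ⟨dd_dvd m hm _ _, hm.ne_zero⟩,
      Nat.mem_divisors.mpr ⟨dd_dvd m hm _ _, hm.ne_zero⟩⟩, fun p hp => ?_⟩
    rw [Nat.mem_primeFactors] at hp
    have : Fact p.Prime := ⟨hp.1⟩
    have hp2 : p ≠ 2 := by
      rintro rfl
      exact (Nat.not_even_iff_odd.mpr hodd) (even_iff_two_dvd.mpr hp.2.1)
    have l1 := hloc p hp.2.1 e.1 e.2 he.1 he.2.1 (he.2.2 p hp2)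
    have l2 := hloc p hp.2.1 f.1 f.2 hf.1 hf.2.1 (hf.2.2 p hp2)
    have hss : ∀ a : ℤ, IsSquare ((a : ℚ) * a) := fun a => ⟨a, rfl⟩
    obtain ⟨k1, k2⟩ := dd_key m hm _ _ (h10 e he) (h10 f hf) s1 e.1 f.1 he.1 hf.1 (hss _) (hss _)
      p hp.1
    obtain ⟨k3, k4⟩ := dd_key m hm _ _ (h20 e he) (h20 f hf) s2 e.2 f.2 he.2.1 hf.2.1 (hss _)
      (hss _) p hp.1
    show L p (dv p (dd m (e.1 : ℚ) (f.1 : ℚ))) (dv p (dd m (e.2 : ℚ) (f.2 : ℚ)))
      (sgn p (dd m (e.1 : ℚ) (f.1 : ℚ))) (sgn p (dd m (e.2 : ℚ) (f.2 : ℚ)))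
    rw [k1, k2, k3, k4]
    exact (hL p hp.1 hp.2.1).2 _ _ _ _ _ _ _ _ l1 l2
  -- representatives
  have hrep : ∃ rep : Out OP → ℤ × ℤ, ∀ e ∈ SelS A B, rep (outS OP e) ∈ SelS A B ∧
      outS OP (rep (outS OP e)) = outS OP e := by
    refine ⟨fun o => if h : ∃ e ∈ SelS A B, outS OP e = o then h.choose else (0, 0),
      fun e he => ?_⟩
    have h : ∃ e' ∈ SelS A B, outS OP e' = outS OP e := ⟨e, he, rfl⟩
    simp only [dif_pos h]
    exact h.choose_spec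
  obtain ⟨rep, hrep⟩ := hrep
  let K : ℤ × ℤ → Out OP × (ℕ × ℕ) := fun e =>
    (outS OP e, (dd m (e.1 : ℚ) ((rep (outS OP e)).1 : ℚ), dd m (e.2 : ℚ) ((rep (outS OP e)).2 : ℚ)))
  have hmaps : Set.MapsTo K (SelS A B)
      (((Finset.univ : Finset (Out OP)) ×ˢ F : Finset (Out OP × (ℕ × ℕ))) : Set _) := by
    intro e he
    obtain ⟨r1, r2⟩ := hrep e he
    rw [Finset.mem_coe, Finset.mem_product]
    exact ⟨Finset.mem_univ _, hFmem e he _ r1 r2.symm⟩
  have canc : ∀ a b r : ℚ, ∀ d : ℕ, r ≠ 0 → d ≠ 0 → IsSquare (a * r * (d : ℚ)) →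
      IsSquare (b * r * (d : ℚ)) → IsSquare (a * b) := by
    intro a b r d hr hd h1 h2
    have hd' : (d : ℚ) ≠ 0 := by exact_mod_cast hd
    apply Pool.Agent.W599.RK.IsSquare.cancel (a := (r * d) ^ 2) (IsSquare.sq _)
    · have h3 := h1.mul h2
      have e : (r * (d : ℚ)) ^ 2 * (a * b) = a * r * d * (b * r * d) := by ring
      rw [e]; exact h3
    · exact pow_ne_zero 2 (mul_ne_zero hr hd')
  have hinj : Set.InjOn K (SelS A B) := by
    intro e he f hf hef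
    have ho : outS OP e = outS OP f := congrArg Prod.fst hef
    have ht1 : dd m (e.1 : ℚ) ((rep (outS OP e)).1 : ℚ) =
      dd m (f.1 : ℚ) ((rep (outS OP f)).1 : ℚ) := congrArg (fun z => z.2.1) hef
    have ht2 : dd m (e.2 : ℚ) ((rep (outS OP e)).2 : ℚ) =
      dd m (f.2 : ℚ) ((rep (outS OP f)).2 : ℚ) := congrArg (fun z => z.2.2) hef
    rw [← ho] at ht1 ht2
    obtain ⟨r1, r2⟩ := hrep e he
    obtain ⟨s1, s2⟩ := hsqs e he _ r1 r2.symm
    obtain ⟨s3, s4⟩ := hsqs f hf _ r1 (ho.symm.trans r2.symm)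
    rw [← ht1] at s3
    rw [← ht2] at s4
    have hd1 : dd m (e.1 : ℚ) ((rep (outS OP e)).1 : ℚ) ≠ 0 :=
      (hm.squarefree_of_dvd (dd_dvd m hm _ _)).ne_zero
    have hd2 : dd m (e.2 : ℚ) ((rep (outS OP e)).2 : ℚ) ≠ 0 :=
      (hm.squarefree_of_dvd (dd_dvd m hm _ _)).ne_zero
    have q1 : IsSquare ((e.1 : ℚ) * (f.1 : ℚ)) := canc _ _ _ _ (h10 _ r1) hd1 s1 s3
    have q2 : IsSquare ((e.2 : ℚ) * (f.2 : ℚ)) := canc _ _ _ _ (h20 _ r1) hd2 s2 s4
    exact Prod.ext (sqf_eq he.1 hf.1 q1) (sqf_eq he.2.1 hf.2.1 q2)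
  refine ⟨Set.Finite.of_injOn hmaps hinj (Finset.finite_toSet _), ?_⟩
  have h1 := Set.ncard_le_ncard_of_injOn K hmaps hinj (Finset.finite_toSet _)
  rw [Set.ncard_coe_finset, Finset.card_product, Finset.card_univ, card_out, hFcard] at h1
  refine h1.trans (Nat.mul_le_mul_right _ (Nat.pow_le_pow_right (by norm_num) (by omega)))

end Pool.Agent.W839.SH
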